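import Pool.Agent.H18.TD.Targets

set_option autoImplicit false

open Polynomial Module Filter Topology Pool.Agent.H18.TD

namespace Pool.Agent.H98.TD1

noncomputable section

theorem sz_C {k : ℤ} (hk : k ≠ 0) : 0 ≤ sz (C k) := by
  unfold sz
  rw [Polynomial.map_C, logMahlerMeasure_const]
  have h1 : (1 : ℤ) ≤ |k| := Int.one_le_abs hk
  have h3 : ‖(Int.castRingHom ℂ) k‖ = |(k : ℝ)| := by
    rw [Int.coe_castRingHom]
    exact Complex.norm_intCast _
  rw [h3]
  have h4 : (1 : ℝ) ≤ |(k : ℝ)| := by exact_mod_cast h1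
  have h5 := Real.log_nonneg h4
  have h6 : (0 : ℝ) ≤ ((C k : ℤ[X]).natDegree : ℝ) := Nat.cast_nonneg _
  linarith

theorem norm_C {k : ℤ} (hk : k ≠ 0) (θ : ℂ) : 1 ≤ ‖aeval θ (C k : ℤ[X])‖ := by
  have h1 : (1 : ℤ) ≤ |k| := Int.one_le_abs hk
  have h2 : aeval θ (C k : ℤ[X]) = (k : ℂ) := by simp
  rw [h2, Complex.norm_intCast]
  exact_mod_cast h1

theorem pf_GFA : T_SZB → T_GFA := by
  intro hS θ R A B hR hB hA hd hc hs
  obtain ⟨hmul, hdeg, hco, hup⟩ := hS
  by_contra hno
  push Not at hno
  have hR0 : R ≠ 0 := by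
    rintro rfl
    simp at hR
  have hsR : sz R ≤ 3 * B := hup R B hR0 hB hd hc
  set lam : ℝ := A / (3 * B) with hlam
  have hlam0 : 0 < lam := by
    rw [hlam]
    positivity
  have hsz0 : ∀ Q : ℤ[X], Q ≠ 0 → 0 ≤ sz Q := by
    intro Q hQ
    exact le_trans (Nat.cast_nonneg _) (hdeg Q hQ)
  -- the claim
  have claim : ∀ Q : ℤ[X], Q ≠ 0 → Q ∣ R →
      Real.exp (-(lam * sz Q)) ≤ ‖aeval θ Q‖ ∧
      (1 ≤ Q.natDegree → Real.exp (-(lam * sz Q)) < ‖aeval θ Q‖) := by
    intro Q
    refine WfDvdMonoid.induction_on_irreducible Q ?_ ?_ ?_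
    · intro h
      exact absurd rfl h
    · intro u hu hu0 _
      have hu1 : IsUnit u := hu
      obtain ⟨k, hk, hku⟩ := Polynomial.isUnit_iff.mp hu1
      have hk0 : k ≠ 0 := hk.ne_zero
      subst hku
      have a1 := norm_C hk0 θ
      have a2 := sz_C hk0
      have a3 : Real.exp (-(lam * sz (C k))) ≤ 1 := by
        apply Real.exp_le_one_iff.mpr
        have := mul_nonneg hlam0.le a2
        linarith
      refine ⟨le_trans a3 a1, ?_⟩
      intro h
      rw [Polynomial.natDegree_C] at h
      omega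
    · intro a p ha hp ih hpa hdvd
      have hp0 : p ≠ 0 := hp.ne_zero
      have hda : a ∣ R := dvd_trans (Dvd.intro_left p rfl) hdvd
      have hdp : p ∣ R := dvd_trans (Dvd.intro a rfl) hdvd
      obtain ⟨i1, i2⟩ := ih ha hda
      have hszm : sz (p * a) = sz p + sz a := hmul p a hp0 ha
      have hnm : ‖aeval θ (p * a)‖ = ‖aeval θ p‖ * ‖aeval θ a‖ := by
        rw [map_mul, norm_mul]
      have hexp : Real.exp (-(lam * sz (p * a))) =
          Real.exp (-(lam * sz p)) * Real.exp (-(lam * sz a)) := by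
        rw [← Real.exp_add, hszm]
        congr 1
        ring
      by_cases hdeg0 : p.natDegree = 0
      · obtain ⟨k, hk⟩ := Polynomial.natDegree_eq_zero.mp hdeg0
        have hk0 : k ≠ 0 := by
          rintro rfl
          apply hp0
          rw [← hk]
          simp
        subst hk
        have a1 := norm_C hk0 θ
        have a2 := sz_C hk0
        have a3 : Real.exp (-(lam * sz (C k))) ≤ 1 := by
          apply Real.exp_le_one_iff.mpr
          have := mul_nonneg hlam0.le a2
          linarith
        rw [hexp, hnm]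
        constructor
        · exact mul_le_mul (le_trans a3 a1) i1 (Real.exp_pos _).le (norm_nonneg _)
        · intro h
          have hna : 1 ≤ a.natDegree := by
            rw [Polynomial.natDegree_mul hp0 ha, Polynomial.natDegree_C] at h
            omega
          have h1 := i2 hna
          calc Real.exp (-(lam * sz (C k))) * Real.exp (-(lam * sz a))
              ≤ 1 * Real.exp (-(lam * sz a)) :=
                mul_le_mul_of_nonneg_right a3 (Real.exp_pos _).le
            _ < 1 * ‖aeval θ a‖ := by linarith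
            _ ≤ ‖aeval θ (C k : ℤ[X])‖ * ‖aeval θ a‖ :=
                mul_le_mul_of_nonneg_right a1 (norm_nonneg _)
      · have hdp1 : 1 ≤ p.natDegree := Nat.one_le_iff_ne_zero.mpr hdeg0
        obtain ⟨c, hc'⟩ := hdp
        have hc0 : c ≠ 0 := by
          rintro rfl
          apply hR0
          rw [hc', mul_zero]
        have hsp : sz p ≤ sz R := by
          rw [hc', hmul p c hp0 hc0]
          have := hsz0 c hc0
          linarith
        have key := hno p hp ⟨c, hc'⟩ hdp1 (hdeg p hp0) (by linarith) (fun i => hco p i hp0)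
        have key' : Real.exp (-(lam * sz p)) < ‖aeval θ p‖ := key
        have hlt : Real.exp (-(lam * sz p)) * Real.exp (-(lam * sz a)) <
            ‖aeval θ p‖ * ‖aeval θ a‖ := by
          have hpos : 0 < ‖aeval θ a‖ := lt_of_lt_of_le (Real.exp_pos _) i1
          calc Real.exp (-(lam * sz p)) * Real.exp (-(lam * sz a))
              ≤ Real.exp (-(lam * sz p)) * ‖aeval θ a‖ :=
                mul_le_mul_of_nonneg_left i1 (Real.exp_pos _).le
            _ < ‖aeval θ p‖ * ‖aeval θ a‖ := mul_lt_mul_of_pos_right key' hpos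
        rw [hexp, hnm]
        exact ⟨hlt.le, fun _ => hlt⟩
  have hcl := claim R hR0 dvd_rfl
  have hle : Real.exp (-A) ≤ Real.exp (-(lam * sz R)) := by
    apply Real.exp_le_exp.mpr
    have h1 : lam * sz R ≤ lam * (3 * B) := mul_le_mul_of_nonneg_left hsR hlam0.le
    have h2 : lam * (3 * B) = A := by
      rw [hlam]
      field_simp
    linarith
  by_cases hdR : R.natDegree = 0
  · obtain ⟨k, hk⟩ := Polynomial.natDegree_eq_zero.mp hdR
    have hk0 : k ≠ 0 := by
      rintro rfl
      apply hR0
      rw [← hk]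
      simp
    have a1 := norm_C hk0 θ
    rw [hk] at a1
    have a2 : Real.exp (-A) < 1 := by
      rw [Real.exp_lt_one_iff]
      linarith
    linarith
  · have := hcl.2 (Nat.one_le_iff_ne_zero.mpr hdR)
    linarith

end

end Pool.Agent.H98.TD1
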